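import Mathlib

/-! Products of three small fractions near an integer `p`: for every `ε > 0` there is a residue class, coprime to
its modulus, such that `m₃(p) ≤ (1 + ε) / p²` for all large `p` in this class. -/

set_option autoImplicit false

namespace Pool.Agent.Results.MP_f414f1_nt.ResidueClass

/-- the identity behind the construction -/
lemma ident (n e q g P b2 b3 : ℤ) (hn : n = e + 1) (hq : q = n ^ 2 * e + 1)
    (h1 : n ^ 4 * b3 = e * P + 1) (h2 : q * P = g * b2 + n ^ 2) :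
    P * P * (q * b3 + e ^ 2) = (P + n ^ 2) * (g * b2 * b3) + 1 := by
  have h3 : g * b2 = q * P - n ^ 2 := by linarith
  rw [h3]
  subst hq
  have h4 : P * P * ((n ^ 2 * e + 1) * b3 + e ^ 2) - (P + n ^ 2) * (((n ^ 2 * e + 1) * P - n ^ 2) * b3) - 1 =
      -(n ^ 4 * b3) * (e * P - 1) + P ^ 2 * e ^ 2 - 1 := by ring
  rw [h1] at h4
  have h5 : -(e * P + 1) * (e * P - 1) + P ^ 2 * e ^ 2 - 1 = 0 := by ring
  linarith

/-- the case of given parameters, in integers -/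
lemma main (e t : ℕ) (he : 3 ≤ e) (ε : ℝ) (hε : 0 < ε) (hεn : 5 ≤ ε * (e + 1)) :
    let n := e + 1
    let q := n ^ 2 * e + 1
    let g := n * q + 1
    let u := 1 + n ^ 2 + 2 * n ^ 3 + n ^ 4 * t
    let P := (n ^ 3 * e + n) * u + (1 + n ^ 2 + n ^ 3 + n ^ 4 * t)
    let p := P + n ^ 2
    ∃ a b : Fin 3 → ℕ, (∀ i, 1 ≤ a i ∧ a i < p ∧ 1 ≤ b i ∧ b i < p) ∧
      |(a 0 : ℝ) / b 0 * (a 1 / b 1) * (a 2 / b 2) - (p : ℝ)| ≤ (1 + ε) / (p : ℝ) ^ 2 := by
  intro n q g u P p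
  set b3 : ℕ := 3 * e + 1 + n * e ^ 2 + 2 * n ^ 2 * e ^ 2 + t * e * g with hb3
  set b2 : ℕ := n ^ 2 * e * u + 1 + 2 * n ^ 3 + n ^ 4 * t with hb2
  set a3 : ℕ := q * b3 + e ^ 2 with ha3
  have h1 : n ^ 4 * b3 = e * P + 1 := by
    simp only [hb3, n, q, g, u, P]
    ring
  have h2 : q * P = g * b2 + n ^ 2 := by
    simp only [hb2, n, q, g, u, P]
    ring
  have hid : P * P * a3 = p * (g * b2 * b3) + 1 := by
    have h1' : (n : ℤ) ^ 4 * b3 = e * P + 1 := by exact_mod_cast h1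
    have h2' : (q : ℤ) * P = g * b2 + (n : ℤ) ^ 2 := by exact_mod_cast h2
    have := ident n e q g P b2 b3 (by simp [n]) (by simp [q]) h1' h2'
    have h3 : ((P * P * a3 : ℕ) : ℤ) = ((p * (g * b2 * b3) + 1 : ℕ) : ℤ) := by
      simp only [ha3, p]
      push_cast
      exact this
    exact_mod_cast h3
  have hn4 : 4 ≤ n := by simp only [n]; omega
  have hen : e < n := by simp only [n]; omega
  have hP6 : n ^ 6 ≤ P := by
    have e1 : n ^ 3 * 3 * (2 * n ^ 3) ≤ P := by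
      simp only [P]
      refine le_trans ?_ (Nat.le_add_right _ _)
      apply Nat.mul_le_mul
      · refine le_trans ?_ (Nat.le_add_right _ _)
        exact Nat.mul_le_mul_left _ he
      · simp only [u]; omega
    refine le_trans ?_ e1
    nlinarith [Nat.zero_le (n ^ 6)]
  have hP1 : 1 ≤ P := le_trans (Nat.one_le_pow _ _ (by omega)) hP6
  have hPp : P < p := by
    simp only [p]
    have : 0 < n ^ 2 := by positivity
    omega
  have hb3P : b3 ≤ P := by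
    have e1 : n ^ 4 * b3 ≤ n ^ 4 * P := by
      rw [h1]
      have e2 : e + 1 ≤ n ^ 4 := by
        have : n ^ 1 ≤ n ^ 4 := Nat.pow_le_pow_right (by omega) (by norm_num)
        rw [pow_one] at this
        exact this
      nlinarith
    exact Nat.le_of_mul_le_mul_left e1 (by positivity)
  have hgq : q < g := by
    simp only [g]
    nlinarith [Nat.zero_le q]
  have hq0 : 0 < q := by simp only [q]; omega
  have hb2P : b2 < P := by
    have e1 : g * b2 < g * P := by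
      have e2 : q * P < g * P := Nat.mul_lt_mul_of_pos_right hgq (by omega)
      omega
    exact Nat.lt_of_mul_lt_mul_left e1
  have hgP : g ≤ P := by
    have e1 : g = n ^ 3 * e + n + 1 := by simp only [g, q]; ring
    have e2 : 1 ≤ u := by simp only [u]; omega
    have e3 : (n ^ 3 * e + n) * 1 ≤ (n ^ 3 * e + n) * u := Nat.mul_le_mul_left _ e2
    simp only [P]
    omega
  have ha3p : a3 < p := by
    have e1 : n ^ 4 * a3 = q * (e * P) + q + e ^ 2 * n ^ 4 := by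
      simp only [ha3]
      calc n ^ 4 * (q * b3 + e ^ 2) = q * (n ^ 4 * b3) + e ^ 2 * n ^ 4 := by ring
        _ = _ := by rw [h1]; ring
    have e2 : q * e ≤ n ^ 4 := by
      simp only [q, n]
      nlinarith [Nat.zero_le (e ^ 3), Nat.zero_le (e ^ 2)]
    have e3 : q + e ^ 2 * n ^ 4 < n ^ 4 * n ^ 2 := by
      simp only [q, n]
      nlinarith [Nat.zero_le (e ^ 5), Nat.zero_le (e ^ 4), Nat.zero_le (e ^ 3), Nat.zero_le (e ^ 2)]
    have e4 : n ^ 4 * a3 < n ^ 4 * p := by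
      have e6 : n ^ 4 * p = n ^ 4 * P + n ^ 4 * n ^ 2 := Nat.mul_add _ _ _
      have e5 : q * (e * P) ≤ n ^ 4 * P := by
        calc q * (e * P) = (q * e) * P := by ring
          _ ≤ n ^ 4 * P := Nat.mul_le_mul_right _ e2
      have e7 : n ^ 4 * a3 = q * (e * P) + (q + e ^ 2 * n ^ 4) := by rw [e1, Nat.add_assoc]
      rw [e6, e7]
      exact Nat.add_lt_add_of_le_of_lt e5 e3
    exact Nat.lt_of_mul_lt_mul_left e4
  have hb3pos : 1 ≤ b3 := by simp only [hb3]; omega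
  have hb2pos : 1 ≤ b2 := by simp only [hb2]; omega
  have hgpos : 1 ≤ g := by simp only [g]; omega
  have ha3pos : 1 ≤ a3 := by simp only [ha3]; nlinarith
  refine ⟨![P, P, a3], ![g, b2, b3], ?_, ?_⟩
  · intro i
    fin_cases i
    · exact ⟨hP1, hPp, hgpos, lt_of_le_of_lt hgP hPp⟩
    · exact ⟨hP1, hPp, hb2pos, hb2P.trans hPp⟩
    · exact ⟨ha3pos, ha3p, hb3pos, lt_of_le_of_lt hb3P hPp⟩
  · simp only [Matrix.cons_val_zero, Matrix.cons_val_one, Matrix.cons_val]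
    have r1 : (0 : ℝ) < g := by exact_mod_cast hgpos
    have r2 : (0 : ℝ) < b2 := by exact_mod_cast hb2pos
    have r3 : (0 : ℝ) < b3 := by exact_mod_cast hb3pos
    have rP : (1 : ℝ) ≤ P := by exact_mod_cast hP1
    have rp : (0 : ℝ) < p := by exact_mod_cast (by omega : 0 < p)
    have hidr : (P : ℝ) * P * a3 = p * (g * b2 * b3) + 1 := by exact_mod_cast hid
    set B : ℝ := (g : ℝ) * b2 * b3 with hB
    have hB0 : 0 < B := by positivity
    have e1 : (P : ℝ) / g * (P / b2) * (a3 / b3) - (p : ℝ) = 1 / B := by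
      have : (P : ℝ) / g * (P / b2) * (a3 / b3) = (P * P * a3) / B := by
        rw [hB]; field_simp
      rw [this, hidr]
      field_simp
      ring
    rw [e1, abs_of_pos (by positivity), div_le_div_iff₀ hB0 (by positivity), one_mul]
    -- p ^ 2 ≤ (1 + ε) B
    have rn : (4 : ℝ) ≤ n := by exact_mod_cast hn4
    have ren : (e : ℝ) = n - 1 := by simp only [n]; push_cast; ring
    have hlow : (n : ℝ) ^ 2 * e ^ 2 * P ≤ n ^ 4 * a3 := by
      have : n ^ 2 * e ^ 2 * P ≤ n ^ 4 * a3 := by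
        calc n ^ 2 * e ^ 2 * P = (n ^ 2 * e) * (e * P) := by ring
          _ ≤ q * (n ^ 4 * b3) := Nat.mul_le_mul (by simp only [q]; omega) (by omega)
          _ = n ^ 4 * (q * b3) := by ring
          _ ≤ n ^ 4 * a3 := Nat.mul_le_mul_left _ (by simp only [ha3]; omega)
      exact_mod_cast this
    have hP6r : (n : ℝ) ^ 6 ≤ P := by exact_mod_cast hP6
    have hpr : (p : ℝ) = P + n ^ 2 := by simp only [p]; push_cast; ring
    have hn0 : (0 : ℝ) < n := by linarith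
    -- multiply by `p n⁴`
    have key : (p : ℝ) ^ 3 * n ^ 4 ≤ (1 + ε) * (n ^ 4 * (P * P * a3 - 1)) := by
      have k1 : (n : ℝ) ^ 4 * (P * P * a3 - 1) ≥ P ^ 3 * (n ^ 2 * e ^ 2) - n ^ 4 := by
        have := mul_le_mul_of_nonneg_left hlow (show (0 : ℝ) ≤ (P : ℝ) ^ 2 by positivity)
        nlinarith
      have k2 : (p : ℝ) * n ^ 4 ≤ P * (n ^ 4 + 1) := by
        rw [hpr]
        nlinarith
      have k3 : ((p : ℝ) * n ^ 4) ^ 3 ≤ (P * (n ^ 4 + 1)) ^ 3 := pow_le_pow_left₀ (by positivity) k2 3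
      have k4 : (n : ℝ) ^ 4 ≤ P ^ 3 := by
        have q1 : (n : ℝ) ^ 4 ≤ n ^ 6 := pow_le_pow_right₀ (by linarith) (by norm_num)
        have q2 : (P : ℝ) ^ 1 ≤ P ^ 3 := pow_le_pow_right₀ rP (by norm_num)
        rw [pow_one] at q2
        linarith
      have k5 : (n ^ 4 + 1 : ℝ) ^ 3 ≤ n ^ 8 * (n ^ 4 + 7) := by
        have q1 : (1 : ℝ) ≤ n ^ 4 := one_le_pow₀ (by linarith)
        have q2 : (n : ℝ) ^ 8 = (n ^ 4) ^ 2 := by ring
        rw [q2]
        nlinarith [mul_nonneg (show (0 : ℝ) ≤ (n : ℝ) ^ 4 by positivity) (show (0 : ℝ) ≤ (n : ℝ) ^ 4 - 1 by linarith)]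
      have k6 : (n : ℝ) ^ 4 + 7 ≤ (1 + ε) * (n ^ 2 * e ^ 2 - 1) := by
        rw [ren]
        have hεn' : 5 ≤ ε * n := by
          have : ((n : ℕ) : ℝ) = (e : ℝ) + 1 := by simp only [n]; push_cast; ring
          rw [this]; exact hεn
        have q1 : (0 : ℝ) ≤ (n : ℝ) ^ 3 := by positivity
        -- ε (n²(n-1)² - 1) ≥ 2 n³ + ...
        have q2 : (n : ℝ) ^ 2 * (n - 1) ^ 2 - 1 ≥ n ^ 4 / 2 := by nlinarith [mul_nonneg (show (0:ℝ) ≤ n by linarith) (show (0:ℝ) ≤ n - 4 by linarith), pow_nonneg hn0.le 3, pow_nonneg hn0.le 2]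
        have q3 : ε * ((n : ℝ) ^ 2 * (n - 1) ^ 2 - 1) ≥ 5 * n ^ 3 / 2 := by
          have := mul_le_mul_of_nonneg_left q2 hε.le
          have q4 : ε * ((n : ℝ) ^ 4 / 2) = (ε * n) * (n ^ 3 / 2) := by ring
          have q5 : 5 * ((n : ℝ) ^ 3 / 2) ≤ (ε * n) * (n ^ 3 / 2) := mul_le_mul_of_nonneg_right hεn' (by positivity)
          linarith
        have q6 : (n : ℝ) ^ 3 / 2 + n ^ 2 ≥ 8 := by nlinarith [pow_nonneg hn0.le 3, pow_nonneg hn0.le 2]
        nlinarith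
      have k7 : (0 : ℝ) ≤ P ^ 3 := by positivity
      -- n⁸ p³ n⁴ ≤ P³ (n⁴+1)³ ≤ P³ n⁸ (n⁴+7)
      have k8 : (n : ℝ) ^ 8 * ((p : ℝ) ^ 3 * (n : ℝ) ^ 4) ≤ (n : ℝ) ^ 8 * ((P : ℝ) ^ 3 * ((n : ℝ) ^ 4 + 7)) := by
        calc (n : ℝ) ^ 8 * ((p : ℝ) ^ 3 * (n : ℝ) ^ 4) = ((p : ℝ) * (n : ℝ) ^ 4) ^ 3 := by ring
          _ ≤ ((P : ℝ) * ((n : ℝ) ^ 4 + 1)) ^ 3 := k3
          _ = (P : ℝ) ^ 3 * ((n : ℝ) ^ 4 + 1) ^ 3 := by ring
          _ ≤ (P : ℝ) ^ 3 * ((n : ℝ) ^ 8 * ((n : ℝ) ^ 4 + 7)) := mul_le_mul_of_nonneg_left k5 k7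
          _ = _ := by ring
      have k9 : (p : ℝ) ^ 3 * n ^ 4 ≤ P ^ 3 * (n ^ 4 + 7) := le_of_mul_le_mul_left k8 (by positivity)
      calc (p : ℝ) ^ 3 * n ^ 4 ≤ P ^ 3 * (n ^ 4 + 7) := k9
        _ ≤ P ^ 3 * ((1 + ε) * (n ^ 2 * e ^ 2 - 1)) := mul_le_mul_of_nonneg_left k6 k7
        _ = (1 + ε) * (P ^ 3 * (n ^ 2 * e ^ 2) - P ^ 3) := by ring
        _ ≤ (1 + ε) * (P ^ 3 * (n ^ 2 * e ^ 2) - n ^ 4) := by
            apply mul_le_mul_of_nonneg_left _ (by linarith)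
            linarith
        _ ≤ _ := mul_le_mul_of_nonneg_left k1 (by linarith)
    have key2 : (p * n ^ 4 : ℝ) * p ^ 2 ≤ (p * n ^ 4) * ((1 + ε) * B) := by
      calc (p * n ^ 4 : ℝ) * p ^ 2 = p ^ 3 * n ^ 4 := by ring
        _ ≤ (1 + ε) * (n ^ 4 * (P * P * a3 - 1)) := key
        _ = (1 + ε) * (n ^ 4 * (p * B)) := by rw [hidr]; ring
        _ = _ := by ring
    exact le_of_mul_le_mul_left key2 (by positivity)

/-- **The upper bound `(1 + ε) / p²` in a residue class.** For every `ε > 0` there are a modulus `M` and a class `r`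
coprime to `M` such that for all `p ≥ r` with `p ≡ r` modulo `M` there are `a_i, b_i` in `{1, …, p - 1}` with
`|a₁/b₁ · a₂/b₂ · a₃/b₃ - p| ≤ (1 + ε) / p²`; the class contains infinitely many primes. -/
theorem result (ε : ℝ) (hε : 0 < ε) :
    ∃ M r : ℕ, 0 < M ∧ r.Coprime M ∧ {p : ℕ | p.Prime ∧ p ≡ r [MOD M]}.Infinite ∧
      ∀ p : ℕ, r ≤ p → p ≡ r [MOD M] →
        ∃ a b : Fin 3 → ℕ, (∀ i, 1 ≤ a i ∧ a i < p ∧ 1 ≤ b i ∧ b i < p) ∧
          |(a 0 : ℝ) / b 0 * (a 1 / b 1) * (a 2 / b 2) - (p : ℝ)| ≤ (1 + ε) / (p : ℝ) ^ 2 := by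
  obtain ⟨i, hi⟩ := exists_nat_gt (5 / ε)
  set e : ℕ := 2 * i + 3 with he
  have he3 : 3 ≤ e := by omega
  have hεn : 5 ≤ ε * ((e : ℝ) + 1) := by
    rw [div_lt_iff₀ hε] at hi
    have : (e : ℝ) = 2 * i + 3 := by rw [he]; push_cast; ring
    rw [this]
    have h0 : (0 : ℝ) ≤ i := Nat.cast_nonneg i
    nlinarith
  set n : ℕ := e + 1 with hn
  set q : ℕ := n ^ 2 * e + 1 with hq
  set g : ℕ := n * q + 1 with hg
  set u₀ : ℕ := 1 + n ^ 2 + 2 * n ^ 3 with hu₀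
  set r : ℕ := (n ^ 3 * e + n) * u₀ + (1 + n ^ 2 + n ^ 3) + n ^ 2 with hr
  have hM : 0 < g * n ^ 4 := by
    have : 0 < g := by rw [hg]; omega
    have : 0 < n := by omega
    positivity
  have hrn : r.Coprime (n ^ 4) := by
    apply Nat.Coprime.pow_right
    have : r = 1 + n * ((n ^ 2 * e + 1) * u₀ + 2 * n + n ^ 2) := by rw [hr]; ring
    rw [this]
    simp
  have hgn : Nat.Coprime g n := by
    rw [hg]
    simp
  have hge : Nat.Coprime g e := by
    have h1 : g = 2 + (n ^ 3 + 1) * e := by rw [hg, hq, hn]; ring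
    rw [h1]
    rw [Nat.coprime_add_mul_right_left]
    rw [Nat.coprime_two_left]
    exact ⟨i + 1, by rw [he]; ring⟩
  have hrg : r.Coprime g := by
    have h1 : g * u₀ = r + n ^ 2 * e := by rw [hr, hg, hq, hn]; rw [hu₀]; rw [hn]; ring
    have h2 : Nat.gcd r g ∣ n ^ 2 * e := by
      have h3 : Nat.gcd r g ∣ r + n ^ 2 * e := by
        rw [← h1]
        exact (Nat.gcd_dvd_right r g).mul_right u₀
      exact (Nat.dvd_add_right (Nat.gcd_dvd_left r g)).1 h3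
    have h4 : Nat.Coprime g (n ^ 2 * e) := Nat.Coprime.mul_right (Nat.Coprime.pow_right 2 hgn) hge
    have h5 : Nat.gcd r g ∣ Nat.gcd g (n ^ 2 * e) := Nat.dvd_gcd (Nat.gcd_dvd_right r g) h2
    rw [h4] at h5
    exact Nat.dvd_one.1 h5
  have hrM : r.Coprime (g * n ^ 4) := Nat.Coprime.mul_right hrg hrn
  refine ⟨g * n ^ 4, r, hM, hrM, ?_, ?_⟩
  · rw [Set.infinite_iff_exists_gt]
    intro N
    obtain ⟨p, hp1, hp2, hp3⟩ := Nat.forall_exists_prime_gt_and_modEq N hM.ne' hrM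
    exact ⟨p, ⟨hp2, hp3⟩, hp1⟩
  · intro p hrp hp
    obtain ⟨t, ht⟩ := (Nat.modEq_iff_dvd' hrp).1 hp.symm
    have hpt : p = r + g * n ^ 4 * t := by omega
    have h := main e t he3 ε hε hεn
    have heq : (n ^ 3 * e + n) * (1 + n ^ 2 + 2 * n ^ 3 + n ^ 4 * t) + (1 + n ^ 2 + n ^ 3 + n ^ 4 * t) + n ^ 2 = p := by
      rw [hpt, hr, hg, hq, hu₀]; ring
    simp only at h
    rw [← hn, heq] at h
    exact h

end Pool.Agent.Results.MP_f414f1_nt.ResidueClass
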